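import Pool.Agent.H23BB.Local

set_option autoImplicit false

/-!
# MP_08891c_ag: a local criterion for the existence of Bloch-Beilinson filtrations

For every theory of Chow groups, cohomology groups, cycle class and Abel-Jacobi maps with the
usual formal properties (`ChowTheory`, `Laws`), simultaneous Bloch-Beilinson filtrations for a
class `S` of objects exist if and only if each single object `Z` of a class `K` has one with
respect to its self-correspondences, if and only if explicit iterated composites of
self-correspondences of single objects vanish. Here `K ⊆ S` is any class such that any two objects
of `S` are direct summands of a common object of `K`.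

For varieties, `X` is a summand of `Z` as soon as there is a surjective morphism `Z → X`
(`Laws.summand_of_push`), and any two varieties of dimension at most `n` are dominated by a variety
of dimension `n` (a complete intersection in a product). So for all `n` the simultaneous existence
for all varieties of dimension at most `n` is equivalent to the existence for each single variety
of dimension `n`.
-/

universe w u v

namespace Pool.Agent.Results.MP_08891c_ag.LocalCriterion

open Pool.Agent.H23BB Pool.Agent.H23BB.ChowTheory

theorem result (W : Geo.{w, u}) (T : ChowTheory.{w, u, v} W) (hT : T.Laws) (S K : Set W.Obj)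
    (hKS : K ⊆ S) (hK : ∀ X ∈ S, ∀ Y ∈ S, ∃ Z ∈ K, T.Summand X Z ∧ T.Summand Y Z) :
    [∃ F, T.IsBB S F,
      ∀ Z ∈ K, ∃ F, T.IsBB {Z} F,
      ∀ Z ∈ K, ∀ j : ℕ, 2 ≤ j → ∀ w, Reach T {Z} (j + 1) Z j w → w = 0].TFAE :=
  hT.local_criterion S K hKS hK

end Pool.Agent.Results.MP_08891c_ag.LocalCriterion
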