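import Pool.Agent.H23CT.Ob

/-!
# The size of the obstruction to the existence of a Bloch-Beilinson filtration

Let `C` be the category of the smooth connected complex projective varieties, with the groups
`CH^*(X × Y)_ℚ` (all codimensions) as morphisms. For a variety `Y` let `Ob(Y) ⊆ CH^*(Y)_ℚ` be the
following explicit subspace (`ob`): it is generated by the classes which are obtained from a class
`z` in the kernel of an Abel-Jacobi map by applying successively correspondences, the one applied
to a class of codimension `j` at the level `ν ≥ 2` acting as zero on `H^(2j-ν)`, until a class in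
`CH^j` of level at least `j + 1` is reached, and then any correspondence.

Theorem.

* There are filtrations which satisfy the conditions (1), (3), (4) of Bloch and Beilinson, and (2) modulo
  `Ob`; and `Ob` is the smallest system of spaces of cycles, stable under correspondences, with this
  property. So a Bloch-Beilinson filtration exists if and only if `Ob(X) = 0` for all `X`.
* For each variety `T` the quotients `dim Ob(T^n) / ρ(T^n)`, `ρ(T^n)` the rank of the group of all
  cycles on `T^n` modulo numerical equivalence, CONVERGE for `n → ∞` to a number `N` (or to
  infinity), `N = 0` or `N ≥ 1`, and `N = 0` if and only if `Ob(T^n) = 0` for all `n`.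
* So **a Bloch-Beilinson filtration exists (on all varieties) if and only if for each variety `T` the
  dimension of `Ob(T^n)` is at most `c ρ(T^n)` for infinitely many `n` and some `c < 1`**: the
  question is a question about the size of the explicit spaces `Ob(T^n)` only. If there is no
  Bloch-Beilinson filtration then there is a variety `T` such that, for all `ε > 0`, the
  obstruction has at least the dimension `(1 - ε) ρ(T^n)` for all large `n`.
* With the elliptic curves (`D`) the bound `c < 1` may be replaced by `c < ∞`, and it is enough that
  all groups `Ob(X)` are countable: **either a Bloch-Beilinson filtration exists or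
  `dim Ob(T^n) / ρ(T^n)` tends to infinity for some variety `T`** (and some `Ob(X)` is uncountable).
* If `Ob(T^m)` has an element `x` with `x × ⋯ × x ≠ 0` (`k + 1` factors) then `N ≥ k + 1`. So either all
  elements of the `Ob(T^n)` are smash-nilpotent, or `dim Ob(T^n)` grows faster than every multiple
  of the rank `ρ(T^n)`.
* If `N` is finite, then all `Ob(T^n)` are finite-dimensional, and they are all generated, under
  correspondences, by at most `N` elements of one of them.

The setting. `R` is the Betti cohomology with coefficients extended to an algebraically closed field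
`K`, for instance `K = ℂ`; all `h(X)` are self-dual and have the motive of a point as a direct
summand (these are `hpair` and `hunit`). The structure `Cycles` consists of the spaces of the
correspondences of degree `c`, the groups `H^i(X)`, and the kernels of the Abel-Jacobi maps; their
known properties are listed in `Laws`.  The standard conjectures, in particular the sign conjecture
or the algebraicity of the Künneth components, which are not known over `ℂ`, are not assumed.

Idea of the proof. The first part is formal: the filtration `low` generated by the condition (4) is the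
smallest one with (1), (3), (4). For the second part, `Ob` is an additive functor on `C`, and
numerically trivial correspondences form the radical. Modulo numerical equivalence `C` is
semisimple (Jannsen). For direct summands `M`, `N` of powers of `T` modulo numerical equivalence
`dim Hom_num (M, T^n) / c (n)` has a limit `d (M)`, `d` being additive and multiplicative and
`d (M) ≥ 1` for `M ≠ 0`, where `c (n)` is asymptotic to `ρ (T^n)`; this is proved by elementary
analysis, from the inequality of Cauchy and Schwarz, without any realisation of numerical motives
(files Pool/Agent/H23NC). If the lower limit of the quotients is finite, numerically trivial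
correspondences act nilpotently on `Ob`, and `Ob` has finitely many constituents on the powers of
`T`, which are simple numerical motives and contribute `d (M) ≥ 1` to the limit.

The last part: if all the lower limits are finite then all `Ob(T)` are finite-dimensional over `ℚ`, hence
countable. Let `x` be in `Ob(X)` and `E` an elliptic curve. The classes `x × (p - q)`, `p`, `q` points
of `E`, are in the countable group `Ob(X × E)`, so they vanish by Baire's theorem, and it follows that
`x = 0`, as in the results `OneCurveSuffices` and `ThinFamilies`, where the properties of the curves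
(`Curve.Laws`, `Baire`, `Separated`) are explained.

Author: helper23; the lemmas on semisimplicity, duality and constituents build on the files AF of
helper64 and the helpers named there.
-/

set_option autoImplicit false

open CategoryTheory MonoidalCategory Module Filter Topology
open Pool.Agent.Y112.SR Pool.Agent.Y112.KD Pool.Agent.N64.AF Pool.Agent.H23NC Pool.Agent.H23OB
open Pool.Agent.H23CT
open scoped ENNReal

namespace Pool.Agent.Results.MP_08891c_ag.ObstructionLaw

universe v u w t

/-- A Bloch-Beilinson filtration exists if and only if the obstruction is small, and the law for the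
size of the obstruction. -/
theorem result {C : Type u} [Category.{v} C] [Preadditive C] [MonoidalCategory C]
    [MonoidalPreadditive C] [SymmetricCategory C] [RightRigidCategory C] [Linear ℚ C]
    [MonoidalLinear ℚ C] {K : Type w} [Field K] [IsAlgClosed K] [Algebra ℚ K]
    (R : SuperRealisation C K) (hR : IsReal ℚ R) (G : Cycles R) (hG : G.Laws)
    (hpair : ∀ X : C, Nonempty (ExactPairing X X)) (hunit : ∀ X : C, HasUnit X) :
    ((∃ F, G.IsBB F) ↔ ∀ T : C, ∃ c : ℝ≥0∞, c < 1 ∧ ∃ᶠ n in atTop,
      share (G.ob (tp T n)) ≤ c) ∧
    (∀ {ι : Type t} (D : ι → Curve C), (∀ i, (D i).Laws G) → (∀ i, (D i).Baire) → Separated D →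
      ((∃ F, G.IsBB F) ↔ ∀ T : C, ∃ c : ℝ≥0∞, c ≠ ⊤ ∧ ∃ᶠ n in atTop,
        share (G.ob (tp T n)) ≤ c) ∧
      ((∃ F, G.IsBB F) ↔ ∀ X : C, (G.ob X : Set (𝟙_ C ⟶ X)).Countable)) ∧
    G.IsBBMod (fun X => G.ob X) (fun X j ν => G.low ν X j) ∧
    (∀ J F, Cycles.Stable J → G.IsBBMod J F → ∀ X, G.ob X ≤ J X) ∧
    ∀ T : C, ∃ N : ℝ≥0∞, Tendsto (fun n => share (G.ob (tp T n))) atTop (𝓝 N) ∧
      (N = 0 ∨ 1 ≤ N) ∧
      (N = 0 ↔ ∀ n, G.ob (tp T n) = ⊥) ∧
      (∀ (m k : ℕ), ∀ x ∈ G.ob (tp T m), tpow x (k + 1) ≠ 0 → (k : ℝ≥0∞) + 1 ≤ N) ∧
      (N ≠ ⊤ → (∀ n, Module.Finite ℚ (G.ob (tp T n))) ∧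
        ∃ (p l : ℕ) (z : Fin l → (𝟙_ C ⟶ tp T p)), (l : ℝ≥0∞) ≤ N ∧
          (∀ i, z i ∈ G.ob (tp T p)) ∧
          ∀ n, G.ob (tp T n) = Submodule.span ℚ {y : 𝟙_ C ⟶ tp T n |
            ∃ (i : Fin l) (c : tp T p ⟶ tp T n), z i ≫ c = y}) :=
  ⟨exists_isBB_iff_share hR hG hpair hunit, fun _ hD hB hS =>
      ⟨exists_isBB_iff_bounded hR hG hpair hunit hD hB hS,
        exists_isBB_iff_ob_countable hR hG hD hB hS⟩, Cycles.isBBMod_ob hR hG,
    fun _ _ hJ hF X => Cycles.ob_le hR hJ hF X, fun T => by
      obtain ⟨_⟩ := hpair T
      exact ob_law hR hG (hunit T)⟩

end Pool.Agent.Results.MP_08891c_ag.ObstructionLaw
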