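import Pool.Agent.H23UN.BB

/-!
# Bloch-Beilinson filtrations: condition (2) need only be tested on cycles from one elliptic curve, and
only on zero-cycles and on cycles which are not detected by restriction

Let `E` be any smooth projective curve of positive genus, for instance a fixed elliptic curve, over
the complex numbers. Say that a cycle on `X` comes from `E` if it is a sum of cycles `f_*(p - q)`
with `f` in `CH^*(E × X)_ℚ` and points `p`, `q` of `E`; these are special cycles algebraically
equivalent to zero.

Theorem. Let `F` be filtrations of the groups `CH^j(X)_ℚ` (for all smooth projective `X`) which satisfy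
the conditions (1), (3), (4) of Bloch and Beilinson. If condition (2) holds for the cycles which come
from `E`, that is if `F^(j+1) CH^j(X)` does not contain a cycle `x ≠ 0` which comes from `E`, for all
`X` and `j`, then (2) holds for all cycles, and `F` is a Bloch-Beilinson filtration. More generally it
is sufficient to test (2) for the cycles which come from each of finitely many given curves.
So a Bloch-Beilinson filtration exists if and only if the smallest filtration `low` with (1), (3),
(4) (which is generated by condition (4), see `Cycles.low`) has this property.
In particular Griffiths groups play no role for condition (2).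

Moreover, **it is enough to test zero-cycles and undetected cycles** (which come from `E`). Let `N^j(X)`
be the group of the classes in `CH^j(X)_ℚ` whose restrictions to all subvarieties of dimension `j` of
`X` (more precisely, to resolutions of them) vanish (`und`). Nori's conjecture says that `N^j(X) = 0`. For
each `j` one has `F^(j+1) CH^j(X) = 0` for all `X` if and only if this holds for the varieties of
dimension `j`, and `F^(j+1) CH^j(X) ∩ N^j(X) = 0` for all `X`. So, if Nori's conjecture holds, the
existence of a Bloch-Beilinson filtration is a question about zero-cycles only; and without it there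
are two problems, which are independent of each other, and in both of them it is enough to
consider cycles which come from `E`.

Proof. Let `x` be in `F^(j+1) CH^j(X)`. For points `p`, `q` of `E` the product `x × (p - q)` is in
`F^(j+2) CH^(j+1)(X × E)`, since the correspondence `z ↦ z × (p - q)` is homologically trivial and
has degree one, and it comes from `E`; hence it is `0`. So the cycle `W = x × Δ_E - x × q × E` on
`(X × E) × E` restricts to `0` over all points of the last factor. By Bloch and Srinivas
`W = ∑ y_k × p_k` for cycles `y_k` on `X × E` and points `p_k`. Let `g > 0` be the genus. The trace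
over `E × E` gives `(2 - 2g) x - x = ∑ y_k | p_k`, the direct image on `X × E` gives
`x × E = ∑ y_k`, and so `-2g x = ∑ (y_k | p_k - y_k | q)` comes from `E`. Hence `x = 0`.
For several curves one uses induction.

The restriction of `x` to a resolution `Z` of a subvariety of dimension `j` is in
`F^(j+1) CH^j(Z)`, a group of zero-cycles. If these groups vanish then `x` is in `N^j(X)`. The groups
`N^j(X)` are stable under all correspondences `f` from `X` to `Y`: let `f` be of degree `c` and
`Z → Y` a resolution of a subvariety of dimension `j + c`. The correspondence from `X` to `Z` is a
combination of subvarieties of `X × Z` of dimension `j`, whose images in `X` have a dimension at most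
`j`; so it factors through restrictions to subvarieties of dimension `j`. Hence the theorem may be
applied to the zero-cycles in `F^(j+1) CH^j(X)` and to `F^(j+1) CH^j(X) ∩ N^j(X)` separately.

The setting is the one of the result `ObstructionLaw`: `C` is the category of smooth projective
varieties with the correspondences `CH^*(X × Y)_ℚ` as morphisms, `R` the Betti cohomology;
`Cycles`, `Cycles.Laws` are the degrees of correspondences and the kernels of the Abel-Jacobi maps
with their known properties. `Curve`, `Curve.Laws` are the classes of the points and the fundamental
class of a curve with their known properties; `spread` is the theorem of Bloch and Srinivas for a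
family of cycles over a curve (over an algebraically closed field which is not countable). `Restr`
contains the dimension and the restrictions to subvarieties with their known properties.

Author: helper23.
-/

set_option autoImplicit false

open CategoryTheory MonoidalCategory Module Filter
open Pool.Agent.Y112.SR Pool.Agent.N64.AF Pool.Agent.H23OB Pool.Agent.H23CT Pool.Agent.H23UN

namespace Pool.Agent.Results.MP_08891c_ag.OneCurveSuffices

universe v u w t

/-- Condition (2) of Bloch and Beilinson follows from (1), (3), (4) and from (2) for the cycles which
come from each of finitely many given curves of positive genus; and among these it is enough to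
consider zero-cycles and cycles which are not detected by restriction to subvarieties. -/
theorem result {C : Type u} [Category.{v} C] [Preadditive C] [MonoidalCategory C]
    [MonoidalPreadditive C] [SymmetricCategory C] [Linear ℚ C] [MonoidalLinear ℚ C]
    {K : Type w} [Field K] [Algebra ℚ K] (R : SuperRealisation C K) (hR : IsReal ℚ R)
    (G : Cycles R) (hG : G.Laws) {ι : Type t} (D : ι → Curve C) (hD : ∀ i, (D i).Laws G)
    (s : Finset ι) :
    (∀ F, G.IsBBMod (fun _ => ⊤) F →
      (G.IsBB F ↔ ∀ (X : C) (j : ℕ), ∀ x ∈ F X j (j + 1),
        (∀ i ∈ s, x ∈ (D i).img X) → x = 0) ∧
      ∀ (dim : C → ℕ) (res : ∀ X Z : C, Set (X ⟶ Z)), Restr G dim res →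
        (∀ (i : ι) (X : C), dim (X ⊗ (D i).E) = dim X + 1) →
        (∀ j : ℕ, (∀ X : C, F X j (j + 1) = ⊥) ↔ (∀ X : C, dim X = j → F X j (j + 1) = ⊥) ∧
          ∀ X : C, und G dim res X j ⊓ F X j (j + 1) = ⊥) ∧
        (G.IsBB F ↔
          (∀ (X : C) (j : ℕ), dim X = j → ∀ x ∈ F X j (j + 1),
            (∀ i ∈ s, x ∈ (D i).img X) → x = 0) ∧
          ∀ (X : C) (j : ℕ), ∀ x ∈ und G dim res X j, x ∈ F X j (j + 1) →
            (∀ i ∈ s, x ∈ (D i).img X) → x = 0)) ∧
    G.IsBBMod (fun _ => ⊤) (fun X j ν => G.low ν X j) ∧
    ((∃ F, G.IsBB F) ↔ G.IsBB (fun X j ν => G.low ν X j)) :=
  ⟨fun _ hF => ⟨isBB_iff_imgs hD hF s, fun dim res hres hdim => ⟨codim_iff hF hres, by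
      rw [isBB_iff_zero_und_imgs hF hres hD hdim s]
      exact and_congr
        ⟨fun h X j hX x hx hs => h X j x ⟨hX, hx⟩ hs, fun h X j x hx hs => h X j hx.1 x hx.2 hs⟩
        ⟨fun h X j x hx hx' hs => h X j x ⟨hx, hx'⟩ hs,
          fun h X j x hx hs => h X j x hx.1 hx.2 hs⟩⟩⟩,
    low_is134 hR hG, exists_iff_low hR hG⟩

end Pool.Agent.Results.MP_08891c_ag.OneCurveSuffices
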