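import Pool.Agent.H23CT.Thin

/-!
# Bloch-Beilinson filtrations: if the spaces which should vanish are not infinite-dimensional then they
vanish

Theorem. Let `F` be filtrations of the groups `CH^j(X)_ℚ` (for all smooth projective complex
varieties `X`) which satisfy the conditions (1), (3), (4) of Bloch and Beilinson. Condition (2) says:
`F^(j+1) CH^j(X) = 0` for all `X`, `j`. It is implied by a much weaker one. For elliptic curves
`E_1, ..., E_m` and a correspondence `f` from `E_1 × ... × E_m` to `X` consider the family of the
classes `f_*((p_1 - q_1) × ... × (p_m - q_m))` on `X`, where `p_i, q_i` are points of `E_i`. We say that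
the group `F^(l+1) CH^l(X)` is **thin of order `m`** if all families of this kind which lie in it are
countable sets. Then:

* `F` satisfies (2) if and only if there are arbitrarily large `j` for which, with some `m ≥ 1`, the
  groups `F^(j+m+1) CH^(j+m)(X)` are thin of order `m`, for all `X`;
* (one variety) `F^(j+1) CH^j(X) = 0` if for some `m ≥ 1` the groups `F^(j+m+1) CH^(j+m)` of the
  varieties `X × E_1 × ... × E_m` are thin of order `m`, for all elliptic curves `E_i`;
* `F` satisfies (2) if for infinitely many `j` the groups `F^(j+1) CH^j(X)` are countable for all `X`;
* a Bloch-Beilinson filtration exists if and only if the smallest filtration `low` with (1), (3),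
  (4) has one of these properties.

Countable groups are thin of order `1`. A group is thin of order `2` as soon as it is
**representable**, for instance if there is a homomorphism with countable kernel from it to a complex
torus `A` such that algebraic families of cycles give holomorphic maps to `A` (as the Abel-Jacobi map
does on homologically trivial cycles): a holomorphic map from `E_1 × E_2` to a complex torus is a sum
of maps from `E_1` and from `E_2`, so it vanishes on `(p_1 - q_1) × (p_2 - q_2)`. So condition (2) may
be replaced by: the groups `F^(j+1) CH^j(X)` are representable for infinitely many `j`. And if there is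
no Bloch-Beilinson filtration then, for all filtrations with (1), (3), (4), the groups
`F^(l+1) CH^l(X)` contain families of each order `m` in all large codimensions `l`: they are not
representable, as the group of zero-cycles of a surface with `p_g > 0` is not representable by the
theorem of Mumford. The order may also grow with the codimension: it is enough to exclude families of
order `m` in codimension `l` for pairs `(l, m)` with `l - m → ∞`.

Proof. Let `x ≠ 0` be in `F^(j+1) CH^j(X)`. If `p`, `q` are points of a curve `E`, then `x × (p - q)`
is in `F^(j+2) CH^(j+1)(X × E)`. As in `OneCurveSuffices` (the theorem of Bloch and Srinivas and a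
trace), if all these products vanish then `x` is a sum of cycles `f_*(p - q)`, `f` in `CH^*(E × X)_ℚ`.
By the last of the properties below there is an elliptic curve `E` for which this is not the case. So
some product is not `0`, and by induction there are elements `y ≠ 0` in `F^(l+1) CH^l(Y)` for all
`l ≥ j`, and for each `m` there are curves and points such that
`w = y × (p_1 - q_1) × ... × (p_(m-1) - q_(m-1))` is not `0`. If the family of these products with `m`
factors is countable for all curves, then `w × p = w × q` for all points `p`, `q` of all elliptic
curves `E` by Baire's theorem, and `w = 0`, a contradiction.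

The setting is the one of the result `ObstructionLaw`: `C` is the category of smooth projective
complex varieties with the correspondences `CH^*(X × Y)_ℚ` as morphisms, `R` the Betti cohomology,
`Cycles.Laws` the known properties of degrees and of the kernels of the Abel-Jacobi maps. The curves
`D i` are all complex elliptic curves, `pw D L` is the product of the curves in the list `L`, and
`diffs D L` is the set of the classes `(p_1 - q_1) × ... × (p_m - q_m)` on it; `ext D X L` is the product
of `X` and of the curves in `L`. The properties of the curves which are used are:

* `Curve.Laws`: duality, degrees, genus; and the theorem of Bloch and Srinivas (`spread`).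
* `Curve.Baire`: a correspondence `W` from `E` to `Y` such that the set of the classes `W_*(p)` is
  countable is constant: the set of the `(p, p')` with `W_*(p) = W_*(p')` is a countable union of
  closed sets.
* `Separated`: a cycle `x` on `X` which for each elliptic curve `E` comes from `E`, that is
  `x = ∑ f_k*(p_k - q_k)`, is `0`. (Let `X` and `x` be defined over the countable algebraically closed
  field `k`, and choose `E` with `j(E)` transcendental over `k`. All data are defined over a finitely
  generated extension of `k`, and there is a discrete valuation ring containing `k` at which `j(E)`
  has a pole, so that, after a finite extension, `E` has a regular model whose special fibre is a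
  cycle of lines. The closures of the `f_k` restrict over the special fibre to families of cycles on
  `X` over connected chains of lines, which are constant in the group of cycles. So `f_k*(p_k)` and
  `f_k*(q_k)` have the same specialisation, and the specialisation of the constant cycle `x` is `0`.
  Hence `x = 0`. The idea to specialise `E` in this way is due to Schoen.)

Author: helper23.
-/

set_option autoImplicit false

open CategoryTheory MonoidalCategory Module Filter
open Pool.Agent.Y112.SR Pool.Agent.N64.AF Pool.Agent.H23OB Pool.Agent.H23CT

namespace Pool.Agent.Results.MP_08891c_ag.ThinFamilies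

universe v u w t

/-- Condition (2) of Bloch and Beilinson follows from (1), (3), (4) if there are arbitrarily large `j`
such that for some `m ≥ 1` all families of order `m` in the spaces `F^(j+m+1) CH^(j+m)(X)` are
countable, for instance if these spaces are countable, or representable. -/
theorem result {C : Type u} [Category.{v} C] [Preadditive C] [MonoidalCategory C]
    [MonoidalPreadditive C] [SymmetricCategory C] [Linear ℚ C] [MonoidalLinear ℚ C]
    {K : Type w} [Field K] [Algebra ℚ K] (R : SuperRealisation C K) (hR : IsReal ℚ R)
    (G : Cycles R) (hG : G.Laws) {ι : Type t} (D : ι → Curve C) (hD : ∀ i, (D i).Laws G)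
    (hB : ∀ i, (D i).Baire) (hS : Separated D) :
    (∀ F, G.IsBBMod (fun _ => ⊤) F →
      (G.IsBB F ↔ ∃ᶠ j : ℕ in atTop, ∃ m, Thin D (InTop F) (m + 1) (j + (m + 1))) ∧
      (G.IsBB F ↔ ∃ᶠ j : ℕ in atTop, ∀ X : C, (F X j (j + 1) : Set (𝟙_ C ⟶ X)).Countable) ∧
      ∀ (X : C) (j m : ℕ), (∀ L : List ι, L.length = m + 1 → ∀ f : pw D L ⟶ ext D X L,
        (∀ z ∈ diffs D L, InTop F (ext D X L) (j + (m + 1)) (z ≫ f)) →
          {y | ∃ z ∈ diffs D L, y = z ≫ f}.Countable) → F X j (j + 1) = ⊥) ∧
    ((∃ F, G.IsBB F) ↔ ∃ᶠ j : ℕ in atTop, ∃ m,
      Thin D (InTop fun X j ν => G.low ν X j) (m + 1) (j + (m + 1))) ∧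
    ((∃ F, G.IsBB F) ↔
      ∃ᶠ j : ℕ in atTop, ∀ X : C, (G.low (j + 1) X j : Set (𝟙_ C ⟶ X)).Countable) :=
  ⟨fun F hF => ⟨isBB_iff_thin hD hB hS hF, isBB_iff_countable hD hB hS hF,
      fun _ _ _ h => (Submodule.eq_bot_iff _).2 fun _ hx =>
        eq_zero_of_ext (O := InTop F) hD hB hS (fun i => closed_inTop hF (hD i)) h hx⟩,
    (exists_iff_low hR hG).trans (isBB_iff_thin hD hB hS (low_is134 hR hG)),
    (exists_iff_low hR hG).trans (isBB_iff_countable hD hB hS (low_is134 hR hG))⟩

end Pool.Agent.Results.MP_08891c_ag.ThinFamilies
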